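import Mathlib
import Pool.Agent.H129Z.BMMain

set_option autoImplicit false

namespace Pool.Agent.Results.MP_d900b7_an.InfiniteDiameter

open Pool.Agent.H129Z.BM

universe u

theorem result (K : Type u) [TopologicalSpace K] [CompactSpace K] [T2Space K] [Infinite K] :
    bmDiam C(K, ℝ) = ⊤ :=
  main

end Pool.Agent.Results.MP_d900b7_an.InfiniteDiameter
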